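import Pool.Agent.Y600.DC.Stm
import Pool.Agent.NPC.Dec

/-!
# The polynomial-time algorithm (project DC, block ALG)

Greedy multiplicative weights on the closed neighbourhoods of a graph given by its adjacency matrix.
-/

set_option autoImplicit false

namespace Pool.Agent.U32.DC

open Pool.Agent.NPC Pool.Agent.NPC.R671 Pool.Agent.Y600.DC

/-- closed rows of an adjacency matrix -/
def crows (M : List (List Bool)) : List (List Bool) :=
  M.zipIdx.map (fun p => p.1.zipIdx.map (fun q => q.1 || decide (q.2 = p.2)))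

/-- load of a row -/
def rload (S : List (ℕ × ℕ)) (r : List Bool) : ℕ :=
  ((r.zip S).map (fun x => bif x.1 then x.2.1 else 0)).sum

/-- the first row with the largest (positive) load -/
def best (C : List (List Bool)) (S : List (ℕ × ℕ)) : ℕ × List Bool :=
  C.foldl (fun s r => bif decide (s.1 < rload S r) then (rload S r, r) else s) (0, [])

/-- one round -/
def step (M : List (List Bool)) (S : List (ℕ × ℕ)) : List (ℕ × ℕ) :=
  ((best (crows M) S).2.zip S).map (fun x =>
    bif x.1 then (x.2.1 * (2 * M.length + 1), x.2.2 + 1) else (x.2.1 * (2 * M.length + 2), x.2.2))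

/-- the initial state -/
def init (M : List (List Bool)) : List (ℕ × ℕ) := M.map (fun _ => (1, 0))

/-- the state after `t` rounds -/
def state (M : List (List Bool)) (t : ℕ) : List (ℕ × ℕ) := (step M)^[t] (init M)

/-- the decision -/
def dec (a : List (List Bool) × ℕ) : Bool :=
  (state a.1 (rounds a.1.length)).all (fun x => decide (rounds a.1.length < (a.2 + 1) * x.2))

/-! ### Polynomial time -/

theorem poly_crows : NPC.Poly crows := by
  have h1 : NPC.Poly (fun M : List (List Bool) => M.zipIdx) := NPC.Poly.zipIdx NPC.Poly.id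
  refine NPC.Poly.map (F := fun _ (p : List Bool × ℕ) =>
    p.1.zipIdx.map (fun q => q.1 || decide (q.2 = p.2))) h1 ?_
  refine NPC.Poly.map (F := fun (a : List (List Bool) × List Bool × ℕ) (q : Bool × ℕ) =>
    q.1 || decide (q.2 = a.2.2)) (NPC.Poly.zipIdx (NPC.Poly.fst (NPC.Poly.snd NPC.Poly.id))) ?_
  exact NPC.Poly.or (NPC.Poly.fst (NPC.Poly.snd NPC.Poly.id))
    (NPC.Poly.decide_eq (NPC.Poly.snd (NPC.Poly.snd NPC.Poly.id)) (NPC.Poly.snd (NPC.Poly.snd (NPC.Poly.fst NPC.Poly.id))))

theorem poly_rload {α : Type} [TEnc α] {S : α → List (ℕ × ℕ)} {r : α → List Bool} (hS : NPC.Poly S)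
    (hr : NPC.Poly r) : NPC.Poly (fun a => rload (S a) (r a)) := by
  refine NPC.Poly.sum (NPC.Poly.map (F := fun _ (x : Bool × ℕ × ℕ) => bif x.1 then x.2.1 else 0)
    (NPC.Poly.zip hr hS) ?_)
  exact NPC.Poly.cond (NPC.Poly.fst (NPC.Poly.snd NPC.Poly.id)) (NPC.Poly.fst (NPC.Poly.snd (NPC.Poly.snd NPC.Poly.id)))
    (NPC.Poly.const 0)

theorem best_mem (S : List (ℕ × ℕ)) : ∀ (C : List (List Bool)) (s : ℕ × List Bool),
    (C.foldl (fun s r => bif decide (s.1 < rload S r) then (rload S r, r) else s) s = s) ∨
    ∃ r ∈ C, C.foldl (fun s r => bif decide (s.1 < rload S r) then (rload S r, r) else s) s =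
      (rload S r, r) := by
  intro C
  induction C with
  | nil => intro s; left; rfl
  | cons r C ih =>
    intro s
    rw [List.foldl_cons]
    rcases ih (bif decide (s.1 < rload S r) then (rload S r, r) else s) with h | ⟨r', hr', h⟩
    · rw [h]
      by_cases h1 : s.1 < rload S r
      · right
        exact ⟨r, by simp, by simp [h1]⟩
      · left
        simp [h1]
    · right
      exact ⟨r', by simp [hr'], h⟩

theorem best_ge (S : List (ℕ × ℕ)) : ∀ (C : List (List Bool)) (s : ℕ × List Bool),
    s.1 ≤ (C.foldl (fun s r => bif decide (s.1 < rload S r) then (rload S r, r) else s) s).1 ∧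
    ∀ r ∈ C, rload S r ≤
      (C.foldl (fun s r => bif decide (s.1 < rload S r) then (rload S r, r) else s) s).1 := by
  intro C
  induction C with
  | nil => intro s; exact ⟨le_rfl, fun r hr => by simp at hr⟩
  | cons r C ih =>
    intro s
    rw [List.foldl_cons]
    obtain ⟨h1, h2⟩ := ih (bif decide (s.1 < rload S r) then (rload S r, r) else s)
    by_cases h3 : s.1 < rload S r
    · simp only [h3, decide_true, cond_true] at h1 h2 ⊢
      exact ⟨h3.le.trans h1, fun r' hr' => by
        rcases List.mem_cons.1 hr' with h | h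
        · rw [h]; exact h1
        · exact h2 r' h⟩
    · simp only [h3, decide_false, cond_false] at h1 h2 ⊢
      exact ⟨h1, fun r' hr' => by
        rcases List.mem_cons.1 hr' with h | h
        · rw [h]; exact (not_lt.1 h3).trans h1
        · exact h2 r' h⟩

theorem sz_zero_nil : sz ((0, []) : ℕ × List Bool) = 3 := by
  simp [sz_nat]

theorem poly_best {α : Type} [TEnc α] {C : α → List (List Bool)} {S : α → List (ℕ × ℕ)}
    (hC : NPC.Poly C) (hS : NPC.Poly S) : NPC.Poly (fun a => best (C a) (S a)) := by
  have hl : NPC.Poly (fun p : α × List Bool => rload (S p.1) p.2) :=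
    poly_rload (hS.comp (NPC.Poly.fst NPC.Poly.id)) (NPC.Poly.snd NPC.Poly.id)
  obtain ⟨rC, hrC⟩ := hC.sz_le
  obtain ⟨rl, hrl⟩ := hl.sz_le
  have hl' : NPC.Poly (fun p : α × (ℕ × List Bool) × List Bool => rload (S p.1) p.2.2) :=
    poly_rload (hS.comp (NPC.Poly.fst NPC.Poly.id)) (NPC.Poly.snd (NPC.Poly.snd NPC.Poly.id))
  refine NPC.Poly.foldl (s := fun _ => ((0, []) : ℕ × List Bool))
    (F := fun a s r => bif decide (s.1 < rload (S a) r) then (rload (S a) r, r) else s)
    hC (NPC.Poly.const _) ?_
    (rl.comp (Polynomial.X + rC + Polynomial.C 1) + rC + Polynomial.C 4) ?_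
  · exact NPC.Poly.cond (NPC.Poly.decide_lt (NPC.Poly.fst (NPC.Poly.fst (NPC.Poly.snd NPC.Poly.id))) hl')
      (NPC.Poly.pair hl' (NPC.Poly.snd (NPC.Poly.snd NPC.Poly.id))) (NPC.Poly.fst (NPC.Poly.snd NPC.Poly.id))
  · intro a k _
    simp only [Polynomial.eval_add, Polynomial.eval_comp, Polynomial.eval_X, Polynomial.eval_C]
    rcases best_mem (S a) ((C a).take k) (0, []) with h | ⟨r, hr, h⟩
    · rw [h, sz_zero_nil]
      omega
    · rw [h]
      have h1 := sz_le_of_mem (List.mem_of_mem_take hr)
      have h2 := hrC a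
      have h3 := hrl (a, r)
      simp only [sz_pair] at h3 ⊢
      have h4 := eval_mono rl (show sz a + sz r + 1 ≤ sz a + rC.eval (sz a) + 1 by omega)
      omega

theorem poly_step : NPC.Poly (fun p : List (List Bool) × List (ℕ × ℕ) => step p.1 p.2) := by
  have h1 : NPC.Poly (fun p : List (List Bool) × List (ℕ × ℕ) => (best (crows p.1) p.2).2) :=
    NPC.Poly.snd (poly_best (poly_crows.comp (NPC.Poly.fst NPC.Poly.id)) (NPC.Poly.snd NPC.Poly.id))
  refine NPC.Poly.map (F := fun (p : List (List Bool) × List (ℕ × ℕ)) (x : Bool × ℕ × ℕ) =>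
    bif x.1 then (x.2.1 * (2 * p.1.length + 1), x.2.2 + 1) else
      (x.2.1 * (2 * p.1.length + 2), x.2.2)) (NPC.Poly.zip h1 (NPC.Poly.snd NPC.Poly.id)) ?_
  have h2 : NPC.Poly (fun q : (List (List Bool) × List (ℕ × ℕ)) × Bool × ℕ × ℕ =>
    2 * q.1.1.length) := NPC.Poly.mul (NPC.Poly.const 2) (NPC.Poly.length (NPC.Poly.fst (NPC.Poly.fst NPC.Poly.id)))
  have h3 : NPC.Poly (fun q : (List (List Bool) × List (ℕ × ℕ)) × Bool × ℕ × ℕ => q.2.2.1) :=
    NPC.Poly.fst (NPC.Poly.snd (NPC.Poly.snd NPC.Poly.id))
  have h4 : NPC.Poly (fun q : (List (List Bool) × List (ℕ × ℕ)) × Bool × ℕ × ℕ => q.2.2.2) :=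
    NPC.Poly.snd (NPC.Poly.snd (NPC.Poly.snd NPC.Poly.id))
  exact NPC.Poly.cond (NPC.Poly.fst (NPC.Poly.snd NPC.Poly.id))
    (NPC.Poly.pair (NPC.Poly.mul h3 (NPC.Poly.add h2 (NPC.Poly.const 1))) (NPC.Poly.add h4 (NPC.Poly.const 1)))
    (NPC.Poly.pair (NPC.Poly.mul h3 (NPC.Poly.add h2 (NPC.Poly.const 2))) h4)

theorem state_inv (M : List (List Bool)) : ∀ t : ℕ, (state M t).length ≤ M.length ∧
    ∀ x ∈ state M t, x.1 ≤ (2 * M.length + 2) ^ t ∧ x.2 ≤ t := by
  intro t
  induction t with
  | zero =>
    constructor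
    · simp [state, init]
    · intro x hx
      simp only [state, init, Function.iterate_zero, id_eq, List.mem_map] at hx
      obtain ⟨_, _, rfl⟩ := hx
      simp
  | succ t ih =>
    have h1 : state M (t + 1) = step M (state M t) := by
      unfold state
      rw [Function.iterate_succ_apply']
    rw [h1]
    unfold step
    constructor
    · rw [List.length_map, List.length_zip]
      exact (min_le_right _ _).trans ih.1
    · intro x hx
      rw [List.mem_map] at hx
      obtain ⟨⟨b, w, c⟩, hm, rfl⟩ := hx
      obtain ⟨h2, h3⟩ := ih.2 (w, c) (List.of_mem_zip hm).2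
      simp only at h2 h3
      cases b
      · simp only [cond_false]
        refine ⟨?_, by omega⟩
        rw [pow_succ]
        exact Nat.mul_le_mul_right _ h2
      · simp only [cond_true]
        refine ⟨?_, by omega⟩
        rw [pow_succ]
        exact Nat.mul_le_mul h2 (by omega)

theorem poly_rounds : UPoly (fun M : List (List Bool) => rounds M.length) := by
  have h := UPoly.eval (UPoly.length (α := List (List Bool)) (l := fun M => M) NPC.Poly.id)
    (Polynomial.C 8 * (Polynomial.X + Polynomial.C 1) ^ 4)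
  simp only [Polynomial.eval_mul, Polynomial.eval_pow, Polynomial.eval_add, Polynomial.eval_X,
    Polynomial.eval_C] at h
  exact h

theorem poly_state : NPC.Poly (fun M : List (List Bool) => state M (rounds M.length)) := by
  have h := NPC.Poly.iterLen (l := fun M : List (List Bool) => List.replicate (rounds M.length) ())
    (s := init) (F := step) poly_rounds (NPC.Poly.map (F := fun _ _ => ((1, 0) : ℕ × ℕ)) NPC.Poly.id
      (NPC.Poly.const _)) poly_step
    (Polynomial.X * ((Polynomial.C 4 * ((Polynomial.C 8 * (Polynomial.X + Polynomial.C 1) ^ 4) *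
      (Polynomial.C 2 * Polynomial.X + Polynomial.C 2) + Polynomial.C 1) +
      Polynomial.C 4 * (Polynomial.C 8 * (Polynomial.X + Polynomial.C 1) ^ 4) +
      Polynomial.C 3) + Polynomial.C 1) + Polynomial.C 1) ?_
  · unfold state
    simpa only [List.length_replicate] using h
  · intro M k hk
    rw [List.length_replicate] at hk
    simp only [Polynomial.eval_mul, Polynomial.eval_pow, Polynomial.eval_add, Polynomial.eval_X,
      Polynomial.eval_C]
    obtain ⟨h1, h2⟩ := state_inv M k
    have hn : M.length ≤ sz M := (length_lt_sz M).le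
    set n := M.length with hnn
    have hk' : k ≤ 8 * (sz M + 1) ^ 4 := by
      refine hk.trans ?_
      unfold rounds
      gcongr
    have h3 : ∀ x ∈ (step M)^[k] (init M), sz x ≤
        4 * (8 * (sz M + 1) ^ 4 * (2 * sz M + 2) + 1) + 4 * (8 * (sz M + 1) ^ 4) + 3 := by
      intro x hx
      obtain ⟨h4, h5⟩ := h2 x hx
      obtain ⟨w, c⟩ := x
      simp only at h4 h5
      rw [sz_pair]
      have h6 := sz_nat_le w
      have h7 := sz_nat_le c
      have h8 : w.size ≤ k * (2 * n + 2) + 1 := by
        rw [Nat.size_le]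
        calc w ≤ (2 * n + 2) ^ k := h4
          _ ≤ (2 ^ (2 * n + 2)) ^ k := Nat.pow_le_pow_left Nat.lt_two_pow_self.le k
          _ = 2 ^ (k * (2 * n + 2)) := by rw [← pow_mul, mul_comm]
          _ < 2 ^ (k * (2 * n + 2) + 1) := Nat.pow_lt_pow_right (by norm_num) (by omega)
      have h9 : c.size ≤ c := NPC.Poly.size_le_self c
      have h10 : k * (2 * n + 2) ≤ 8 * (sz M + 1) ^ 4 * (2 * sz M + 2) :=
        Nat.mul_le_mul hk' (by omega)
      omega
    have h4 := sz_le_length_mul _ _ h3
    refine h4.trans ?_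
    gcongr
    exact h1.trans hn

theorem poly_dec : NPC.Poly dec := by
  refine NPC.Poly.all (p := fun (a : List (List Bool) × ℕ) (x : ℕ × ℕ) =>
    decide (rounds a.1.length < (a.2 + 1) * x.2)) (poly_state.comp (NPC.Poly.fst NPC.Poly.id)) ?_
  have h1 : NPC.Poly (fun q : (List (List Bool) × ℕ) × ℕ × ℕ => rounds q.1.1.length) :=
    (UPoly.toPoly poly_rounds).comp (NPC.Poly.fst (NPC.Poly.fst NPC.Poly.id))
  exact NPC.Poly.decide_lt h1 (NPC.Poly.mul (NPC.Poly.add (NPC.Poly.snd (NPC.Poly.fst NPC.Poly.id)) (NPC.Poly.const 1))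
    (NPC.Poly.snd (NPC.Poly.snd NPC.Poly.id)))

/-! ### Correctness -/

section

open Classical in
/-- the closed row of a vertex -/
noncomputable def row {n : ℕ} (G : SimpleGraph (Fin n)) (u : Fin n) : List Bool :=
  List.ofFn fun v => decide (Close G v u)

theorem crows_adj {n : ℕ} (G : SimpleGraph (Fin n)) :
    crows (adjMatrix G) = List.ofFn (row G) := by
  classical
  unfold crows adjMatrix row
  apply List.ext_getElem
  · simp
  · intro u h1 h2
    simp only [List.getElem_map, List.getElem_zipIdx, List.getElem_ofFn]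
    apply List.ext_getElem
    · simp
    · intro v h3 h4
      simp only [List.getElem_map, List.getElem_zipIdx, List.getElem_ofFn, zero_add]
      rw [← Bool.decide_or, decide_eq_decide]
      unfold Close
      rw [Fin.ext_iff]
      simp only
      constructor
      · rintro (h | h)
        · exact Or.inr h.symm
        · exact Or.inl h
      · rintro (h | h)
        · exact Or.inr h
        · exact Or.inl h.symm

theorem zip_ofFn {α β : Type} {n : ℕ} (f : Fin n → α) (g : Fin n → β) :
    (List.ofFn f).zip (List.ofFn g) = List.ofFn fun i => (f i, g i) := by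
  apply List.ext_getElem
  · simp
  · intro i h1 h2
    simp

theorem map_ofFn' {α β : Type} {n : ℕ} (f : Fin n → α) (g : α → β) :
    (List.ofFn f).map g = List.ofFn fun i => g (f i) := by
  apply List.ext_getElem
  · simp
  · intro i h1 h2
    simp

open Classical in
theorem rload_row {n : ℕ} (G : SimpleGraph (Fin n)) (w c : Fin n → ℕ) (u : Fin n) :
    rload (List.ofFn fun v => (w v, c v)) (row G u) =
      ∑ v ∈ Finset.univ.filter (fun v => Close G v u), w v := by
  unfold rload row
  rw [zip_ofFn, map_ofFn', List.sum_ofFn, Finset.sum_filter]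
  refine Finset.sum_congr rfl fun v _ => ?_
  by_cases h : Close G v u <;> simp [h]

/-- the choice of the algorithm -/
noncomputable def pk {n : ℕ} (G : SimpleGraph (Fin n)) (hn : 0 < n) (t : ℕ) : Fin n :=
  open Classical in
  if h : ∃ u : Fin n, (best (crows (adjMatrix G)) (state (adjMatrix G) t)).2 = row G u then h.choose
  else ⟨0, hn⟩

theorem best_row {n : ℕ} (G : SimpleGraph (Fin n)) (hn : 0 < n) (t : ℕ) (w c : Fin n → ℕ)
    (hS : state (adjMatrix G) t = List.ofFn fun v => (w v, c v)) (hw : ∀ v, 0 < w v) :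
    (best (crows (adjMatrix G)) (state (adjMatrix G) t)).2 = row G (pk G hn t) ∧
    ∀ u, rload (state (adjMatrix G) t) (row G u) ≤
      rload (state (adjMatrix G) t) (row G (pk G hn t)) := by
  classical
  have hmem : ∀ u, row G u ∈ crows (adjMatrix G) := by
    intro u
    rw [crows_adj, List.mem_ofFn]
    exact ⟨u, rfl⟩
  have hge := (best_ge (state (adjMatrix G) t) (crows (adjMatrix G)) (0, [])).2
  have hex : ∃ u, best (crows (adjMatrix G)) (state (adjMatrix G) t) =
      (rload (state (adjMatrix G) t) (row G u), row G u) := by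
    rcases best_mem (state (adjMatrix G) t) (crows (adjMatrix G)) (0, []) with h | ⟨r, hr, h⟩
    · exfalso
      have h1 := hge _ (hmem ⟨0, hn⟩)
      rw [h, hS, rload_row] at h1
      have h2 : w ⟨0, hn⟩ ≤ ∑ v ∈ Finset.univ.filter (fun v => Close G v ⟨0, hn⟩), w v :=
        Finset.single_le_sum (f := w) (fun _ _ => Nat.zero_le _)
          (Finset.mem_filter.2 ⟨Finset.mem_univ _, Or.inl rfl⟩)
      have h3 := hw ⟨0, hn⟩
      simp only at h1
      omega
    · rw [crows_adj, List.mem_ofFn] at hr
      obtain ⟨u, rfl⟩ := hr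
      exact ⟨u, h⟩
  obtain ⟨u, hu⟩ := hex
  have hex' : ∃ u : Fin n, (best (crows (adjMatrix G)) (state (adjMatrix G) t)).2 = row G u :=
    ⟨u, by rw [hu]⟩
  have h1 : (best (crows (adjMatrix G)) (state (adjMatrix G) t)).2 = row G (pk G hn t) := by
    unfold pk
    rw [dif_pos hex']
    exact hex'.choose_spec
  refine ⟨h1, fun v => ?_⟩
  have h2 := hge _ (hmem v)
  have h3 : (best (crows (adjMatrix G)) (state (adjMatrix G) t)).1 =
      rload (state (adjMatrix G) t) (row G (pk G hn t)) := by
    rw [← h1, hu]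
  rw [← h3]
  exact h2

theorem cnt_succ {n : ℕ} (G : SimpleGraph (Fin n)) (pick : ℕ → Fin n) (t : ℕ) (v : Fin n) :
    open Classical in
    cnt G pick (t + 1) v = cnt G pick t v + if Close G v (pick t) then 1 else 0 := by
  classical
  unfold cnt
  rw [Finset.range_add_one, Finset.filter_insert]
  by_cases h : Close G v (pick t)
  · rw [if_pos h, if_pos h, Finset.card_insert_of_notMem (by simp)]
  · rw [if_neg h, if_neg h]
    congr!

theorem cnt_le {n : ℕ} (G : SimpleGraph (Fin n)) (pick : ℕ → Fin n) (t : ℕ) (v : Fin n) :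
    cnt G pick t v ≤ t := by
  classical
  unfold cnt
  refine (Finset.card_filter_le _ _).trans ?_
  rw [Finset.card_range]

theorem state_eq {n : ℕ} (G : SimpleGraph (Fin n)) (hn : 0 < n) : ∀ t : ℕ,
    state (adjMatrix G) t = List.ofFn fun v =>
      ((2 * n + 1) ^ cnt G (pk G hn) t v * (2 * n + 2) ^ (t - cnt G (pk G hn) t v),
        cnt G (pk G hn) t v) := by
  classical
  intro t
  induction t with
  | zero =>
    unfold state init adjMatrix
    rw [Function.iterate_zero, id_eq, map_ofFn']
    rfl
  | succ t ih =>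
    have h1 : state (adjMatrix G) (t + 1) = step (adjMatrix G) (state (adjMatrix G) t) := by
      unfold state
      rw [Function.iterate_succ_apply']
    obtain ⟨h2, -⟩ := best_row G hn t _ _ ih (fun v => by positivity)
    have h3 : (adjMatrix G).length = n := by
      unfold adjMatrix
      rw [List.length_ofFn]
    rw [h1]
    unfold step
    rw [h2, ih, h3]
    unfold row
    rw [zip_ofFn, map_ofFn']
    congr 1
    funext v
    have h4 := cnt_le G (pk G hn) t v
    have h5 := cnt_succ G (pk G hn) t v
    by_cases h : Close G v (pk G hn t)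
    · rw [if_pos h] at h5
      rw [h5]
      simp only [h, decide_true, cond_true]
      have h6 : t + 1 - (cnt G (pk G hn) t v + 1) = t - cnt G (pk G hn) t v := by omega
      rw [h6, pow_succ]
      congr 1
      ring
    · rw [if_neg h, add_zero] at h5
      rw [h5]
      simp only [h, decide_false, cond_false]
      have h6 : t + 1 - cnt G (pk G hn) t v = t - cnt G (pk G hn) t v + 1 := by omega
      rw [h6, pow_succ]
      congr 1
      ring

theorem greedy {n : ℕ} (G : SimpleGraph (Fin n)) (hn : 0 < n) (T : ℕ) :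
    Greedy G (pk G hn) T := by
  classical
  intro t _ u
  obtain ⟨-, h⟩ := best_row G hn t _ _ (state_eq G hn t) (fun v => by positivity)
  have h1 := h u
  rw [state_eq G hn t, rload_row, rload_row] at h1
  unfold load
  convert! h1 using 1

end

/-- **Block DC-ALG.** -/
theorem t_ALG : S_ALG := by
  classical
  obtain ⟨A, hA, hspec⟩ := InPP.exists_test
    (inPP_of (P := fun a : List (List Bool) × ℕ => dec a = true) poly_dec (fun a => Iff.rfl))
  refine ⟨A, hA, ?_, ?_⟩
  · intro G k
    rw [← hspec]
    have h1 : adjMatrix G = [] := by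
      unfold adjMatrix
      simp
    unfold dec
    rw [h1]
    have h2 : state [] (rounds (List.length ([] : List (List Bool)))) = [] := by
      have := (state_inv [] (rounds (List.length ([] : List (List Bool))))).1
      exact List.length_eq_zero_iff.1 (by simpa using this)
    simp only
    rw [h2]
    rfl
  · intro n G k hn
    refine ⟨pk G hn, greedy G hn _, ?_⟩
    rw [← hspec]
    have h3 : (adjMatrix G).length = n := by
      unfold adjMatrix
      rw [List.length_ofFn]
    unfold dec
    simp only
    rw [h3, state_eq G hn, List.all_eq_true]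
    constructor
    · intro h v
      have h1 := h _ ((List.mem_ofFn).2 ⟨v, rfl⟩)
      simpa using h1
    · intro h x hx
      rw [List.mem_ofFn] at hx
      obtain ⟨v, rfl⟩ := hx
      simpa using h v

end Pool.Agent.U32.DC
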