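import Pool.Agent.U32.DC.ALG
import Pool.Agent.Y600.DC.NB

/-!
# Assembly of project DC: domination in balanced chordal graphs
-/

set_option autoImplicit false

namespace Pool.Agent.U32.DC

open Pool.Agent.NPC Pool.Agent.NPC.R671 Pool.Agent.Y600.DC

theorem relBalanced_close {V : Type} {G : SimpleGraph V} (h : NbBalanced G) :
    RelBalanced (Close G) := by
  intro m hm h3 e x hx hR
  have hne : NeZero m := ⟨by omega⟩
  have h2 : ((2 : ℕ) : ZMod m) ≠ 0 := by
    rw [Ne, ZMod.natCast_eq_zero_iff]
    exact fun h => by have := Nat.le_of_dvd (by norm_num) h; omega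
  have he : Function.Injective e := by
    intro i j hij
    have h1 : Close G (e j) (x i) := by
      rw [← hij]
      exact (hR i i).2 (Or.inl rfl)
    rcases (hR j i).1 h1 with h4 | h4
    · exact h4
    · exfalso
      have h5 : Close G (e j) (x (i + 1)) := by
        rw [← hij]
        exact (hR i (i + 1)).2 (Or.inr rfl)
      rcases (hR j (i + 1)).1 h5 with h6 | h6
      · apply h2
        push_cast
        linear_combination h6 - h4
      · have h7 : i = j := add_right_cancel h6
        rw [h7] at h4
        have h8 : (1 : ZMod m) = 0 := by linear_combination -h4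
        apply h2
        push_cast
        linear_combination 2 * h8
  exact h m hm h3 e x he hx hR

/-- The decision procedure is correct on graphs with balanced closed neighbourhoods. -/
theorem correct (hR : S_ROUND) (hM : S_MWU) {n : ℕ} (hn : 0 < n) (G : SimpleGraph (Fin n))
    (hG : NbBalanced G) (k : ℕ) (pick : ℕ → Fin n) (hg : Greedy G pick (rounds n)) :
    (∀ v, rounds n < (k + 1) * cnt G pick (rounds n) v) ↔
      ∃ D : Finset (Fin n), D.card ≤ k ∧ Dominating G D := by
  classical
  constructor
  · intro h
    obtain ⟨v₀, -, hv₀⟩ := Finset.exists_min_image (Finset.univ : Finset (Fin n))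
      (fun v => cnt G pick (rounds n) v) ⟨⟨0, hn⟩, Finset.mem_univ _⟩
    set m := cnt G pick (rounds n) v₀ with hm
    have hm1 : 1 ≤ m := by
      by_contra h0
      have h1 : m = 0 := by omega
      have h2 := h v₀
      rw [← hm, h1, mul_zero] at h2
      exact absurd h2 (Nat.not_lt_zero _)
    set a : Fin n → ℕ := fun x => ((Finset.range (rounds n)).filter (fun τ => pick τ = x)).card
      with ha
    have hsum : ∑ x, a x = rounds n := by
      have h1 := Finset.card_eq_sum_card_fiberwise (f := pick) (s := Finset.range (rounds n))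
        (t := Finset.univ) (fun τ _ => Finset.mem_coe.2 (Finset.mem_univ (pick τ)))
      rw [Finset.card_range] at h1
      exact h1.symm
    have hcnt : ∀ v, cnt G pick (rounds n) v =
        ∑ x ∈ Finset.univ.filter (fun x => Close G v x), a x := by
      intro v
      have h1 := Finset.card_eq_sum_card_fiberwise (f := pick)
        (s := (Finset.range (rounds n)).filter (fun τ => Close G v (pick τ)))
        (t := Finset.univ.filter (fun x => Close G v x)) (fun τ hτ => by
          rw [Finset.mem_coe, Finset.mem_filter] at hτ ⊢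
          exact ⟨Finset.mem_univ _, hτ.2⟩)
      unfold cnt
      refine (Eq.trans ?_ h1).trans ?_
      · congr!
      · refine Finset.sum_congr rfl fun x hx => ?_
        rw [ha]
        simp only
        congr 1
        ext τ
        simp only [Finset.mem_filter, Finset.mem_range, Finset.mem_univ, true_and] at hx ⊢
        constructor
        · rintro ⟨⟨h1, _⟩, h2⟩
          exact ⟨h1, h2⟩
        · rintro ⟨h1, h2⟩
          exact ⟨⟨h1, by rw [h2]; exact hx⟩, h2⟩
    obtain ⟨D, hD1, hD2⟩ := hR (Fin n) (Fin n) (Close G) (relBalanced_close hG) a m hm1 (by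
      intro v
      have h1 := hv₀ v (Finset.mem_univ _)
      rw [hcnt v] at h1
      convert! h1 using 1)
    refine ⟨D, ?_, ?_⟩
    · by_contra hk
      have h1 : k + 1 ≤ D.card := by omega
      have h2 := h v₀
      rw [← hm] at h2
      have h3 : m * (k + 1) ≤ m * D.card := Nat.mul_le_mul_left _ h1
      rw [hsum] at hD2
      nlinarith
    · intro v hv
      obtain ⟨x, hx, hc⟩ := hD1 v
      rcases hc with h1 | h1
      · exact absurd (h1 ▸ hx) hv
      · exact ⟨x, hx, h1⟩
  · rintro ⟨D, hD, hdom⟩ v
    exact (hM n G pick hg D hdom v).trans_le (Nat.mul_le_mul_right _ (by omega))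

/-- The algorithm on graphs with balanced closed neighbourhoods. -/
theorem main (hR : S_ROUND) (hM : S_MWU) : ∃ A : List Bool → List Bool, PolyTime A ∧
    ∀ (n : ℕ) (G : SimpleGraph (Fin n)) (k : ℕ), NbBalanced G →
      (A (bits (adjMatrix G, k)) = [true] ↔
        ∃ D : Finset (Fin n), D.card ≤ k ∧ Dominating G D) := by
  obtain ⟨A, hA, h0, h1⟩ := t_ALG
  refine ⟨A, hA, fun n G k hG => ?_⟩
  rcases Nat.eq_zero_or_pos n with rfl | hn
  · refine ⟨fun _ => ⟨∅, by simp, fun v => v.elim0⟩, fun _ => h0 G k⟩
  · obtain ⟨pick, hg, hiff⟩ := h1 n G k hn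
    rw [hiff]
    exact correct hR hM hn G hG k pick hg

end Pool.Agent.U32.DC
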